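import Pool.Agent.Lib.MP_e1f7e2_al.SU.Iface

set_option autoImplicit false

/-! Modules GOOD and MAIN of project SU3 (MP_e1f7e2_al). -/

open MvPolynomial

namespace Pool.Agent.Lib.MP_e1f7e2_al.SU.H42

variable {K : Type*} [Field K] {w : Fin 3 → ℝ}

lemma wt_add (α β : Fin 3 →₀ ℕ) : wt w (α + β) = wt w α + wt w β := by
  simp [wt, add_mul, Finset.sum_add_distrib]

/-- the degree sum of three polynomials is the weight of an exponent -/
lemma sum_val (F : DegFacts K w) (f g h : MvPolynomial (Fin 3) K) :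
    ∃ α : Fin 3 →₀ ℕ, dg w f + dg w g + dg w h = wt w α := by
  obtain ⟨a, ha⟩ := F.val f
  obtain ⟨b, hb⟩ := F.val g
  obtain ⟨c, hc⟩ := F.val h
  exact ⟨a + b + c, by rw [wt_add, wt_add, ha, hb, hc]⟩

/-- `p` is the degree sum of a frame of the vertex `V` -/
def IsSum (w : Fin 3 → ℝ) (V : Submodule K (MvPolynomial (Fin 3) K)) (x : ℝ) : Prop :=
  ∃ f g h : MvPolynomial (Fin 3) K, Fr f g h ∧ sp3 f g h = V ∧ x = dg w f + dg w g + dg w h

lemma exists_min (F : DegFacts K w) {V : Submodule K (MvPolynomial (Fin 3) K)} {x : ℝ}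
    (hx : IsSum w V x) : ∃ m, IsSum w V m ∧ m ≤ x ∧ ∀ y, IsSum w V y → m ≤ y := by
  have hfin : ({y : ℝ | IsSum w V y ∧ y ≤ x}).Finite := by
    refine (F.fin x).subset ?_
    rintro y ⟨⟨f, g, h, -, -, rfl⟩, hy⟩
    exact ⟨hy, sum_val F f g h⟩
  obtain ⟨m, hm, hmin⟩ := Set.exists_min_image _ (fun y : ℝ => y) hfin ⟨x, hx, le_refl x⟩
  refine ⟨m, hm.1, hm.2, fun y hy => ?_⟩
  by_cases hyx : y ≤ x
  · exact hmin y ⟨hy, hyx⟩
  · exact hm.2.trans (not_le.mp hyx).le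

lemma min_ne (F : Facts K w) {V : Submodule K (MvPolynomial (Fin 3) K)} {m : ℝ}
    (hm : ∀ y, IsSum w V y → m ≤ y) {f g h : MvPolynomial (Fin 3) K} (H : Fr f g h)
    (hV : sp3 f g h = V) (hs : m = dg w f + dg w g + dg w h) : dg w f ≠ dg w g := by
  intro he
  obtain ⟨c, -, hlt⟩ := F.d.lead f g (F.b.dpos f g h H) he
  have h1 : f - C c * g = f + ev (C (-c) * X 0) g h := by
    rw [ev_mul, ev_C, ev_X0, map_neg]; ring
  have h2 : Fr (f - C c * g) g h := by
    rw [h1]; exact H.elem1 _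
  have h3 : sp3 (f - C c * g) g h = V := by
    rw [← hV, ← sp3_add1 f g h (-c) 0 0]
    congr 1
    simp; ring
  have h4 := hm _ ⟨_, _, _, h2, h3, rfl⟩
  linarith

theorem good [CharZero K] (F : Facts K w) : GoodStatement K w := by
  intro f g h H
  obtain ⟨m, ⟨a, b, c, Habc, hV, hs⟩, hle, hmin⟩ :=
    exists_min F.d (V := sp3 f g h) (x := dg w f + dg w g + dg w h) ⟨f, g, h, H, rfl, rfl⟩
  have hab : dg w a ≠ dg w b := min_ne F hmin Habc hV hs
  have hac : dg w a ≠ dg w c := min_ne F hmin Habc.swap23 ((sp3_swap23 _ _ _).symm.trans hV)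
    (by linarith)
  have hbc : dg w b ≠ dg w c := min_ne F hmin Habc.rot ((sp3_rot _ _ _).symm.trans hV)
    (by linarith)
  rcases lt_or_gt_of_ne hab with h1 | h1 <;> rcases lt_or_gt_of_ne hac with h2 | h2 <;>
    rcases lt_or_gt_of_ne hbc with h3 | h3
  · -- a < b < c
    exact ⟨c, b, a, ⟨Habc.swap13, h3, h1⟩, by
      rw [← hV, sp3_rot', sp3_swap23], by linarith⟩
  · -- a < c < b
    exact ⟨b, c, a, ⟨Habc.rot, h3, h2⟩, by rw [← hV, ← sp3_rot], by linarith⟩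
  · exact absurd (h1.trans h3) (not_lt.mpr h2.le)
  · -- c < a < b
    exact ⟨b, a, c, ⟨Habc.swap12, h1, h2⟩, by rw [← hV, sp3_swap12], by linarith⟩
  · -- b < a < c
    exact ⟨c, a, b, ⟨Habc.rot', h2, h1⟩, by rw [← hV, ← sp3_rot'], by linarith⟩
  · exact absurd (h2.trans h3) (not_lt.mpr h1.le)
  · -- b < c < a
    exact ⟨a, c, b, ⟨Habc.swap23, h2, h3⟩, by rw [← hV, sp3_swap23], by linarith⟩
  · -- c < b < a
    exact ⟨a, b, c, ⟨Habc, h1, h3⟩, hV, by linarith⟩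

/-- number of weights `≤ x` -/
noncomputable def cnt (w : Fin 3 → ℝ) (x : ℝ) : ℕ :=
  ({y : ℝ | y ≤ x ∧ ∃ α : Fin 3 →₀ ℕ, y = wt w α}).ncard

lemma cnt_lt (F : DegFacts K w) {x y : ℝ} (hxy : x < y) (hy : ∃ α : Fin 3 →₀ ℕ, y = wt w α) :
    cnt w x < cnt w y := by
  refine Set.ncard_lt_ncard ?_ (F.fin y)
  refine ⟨fun z hz => ⟨hz.1.trans hxy.le, hz.2⟩, fun hsub => ?_⟩
  exact absurd (hsub ⟨le_refl y, hy⟩).1 (not_le.mpr hxy)

theorem main [CharZero K] (F : Facts K w) (hg : GoodStatement K w) (hs : StepStatement K w) :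
    MainStatement K w := by
  have key : ∀ n : ℕ, ∀ f g h : MvPolynomial (Fin 3) K, Fr f g h →
      cnt w (dg w f + dg w g + dg w h) = n → Red w (sp3 f g h) →
      ∀ V', Adj (sp3 f g h) V' → Red w V' := by
    intro n
    induction n using Nat.strong_induction_on with
    | _ n ih =>
      intro f g h H hn hr V' hV'
      obtain ⟨f1, f2, f3, hgood, hsp, hle⟩ := hg f g h H
      rw [← hsp] at hr hV'
      refine hs f1 f2 f3 hgood ?_ hr V' hV'
      intro a b c Habc hlt hr' W hW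
      refine ih (cnt w (dg w a + dg w b + dg w c)) ?_ a b c Habc rfl hr' W hW
      rw [← hn]
      exact cnt_lt F.d (hlt.trans_le hle) (sum_val F.d f g h)
  intro f g h H hr V' hV'
  exact key _ f g h H rfl hr V' hV'

end Pool.Agent.Lib.MP_e1f7e2_al.SU.H42
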