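import Pool.Agent.Lib.MP_e1f7e2_al.SU.Iface2

set_option autoImplicit false

/-! Module TAME of project SU3 (MP_e1f7e2_al). -/

open MvPolynomial

namespace Pool.Agent.Lib.MP_e1f7e2_al.SU.H42

variable {K : Type*} [Field K] {w : Fin 3 → ℝ}

/-- the space of affine polynomials -/
noncomputable def W0 (K : Type*) [Field K] : Submodule K (MvPolynomial (Fin 3) K) :=
  sp3 (X 0) (X 1) (X 2)

lemma W0_eq : W0 K = Submodule.span K
    (insert (1 : MvPolynomial (Fin 3) K) (Set.range (X : Fin 3 → MvPolynomial (Fin 3) K))) := by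
  unfold W0 sp3
  congr 1
  ext x
  simp only [Set.mem_insert_iff, Set.mem_singleton_iff, Set.mem_range]
  constructor
  · rintro (h | h | h | h)
    · exact Or.inl h
    · exact Or.inr ⟨0, h.symm⟩
    · exact Or.inr ⟨1, h.symm⟩
    · exact Or.inr ⟨2, h.symm⟩
  · rintro (h | ⟨i, h⟩)
    · exact Or.inl h
    · fin_cases i
      · exact Or.inr (Or.inl h.symm)
      · exact Or.inr (Or.inr (Or.inl h.symm))
      · exact Or.inr (Or.inr (Or.inr h.symm))

/-- vertex of an automorphism -/
noncomputable def vx (φ : MvPolynomial (Fin 3) K ≃ₐ[K] MvPolynomial (Fin 3) K) :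
    Submodule K (MvPolynomial (Fin 3) K) :=
  sp3 (φ (X 0)) (φ (X 1)) (φ (X 2))

lemma vx_eq (φ : MvPolynomial (Fin 3) K ≃ₐ[K] MvPolynomial (Fin 3) K) :
    vx φ = (W0 K).map φ.toLinearMap := by
  unfold vx W0 sp3
  rw [Submodule.map_span]
  congr 1
  simp [Set.image_insert_eq]

lemma vx_mul (φ g : MvPolynomial (Fin 3) K ≃ₐ[K] MvPolynomial (Fin 3) K) :
    vx (φ * g) = (vx g).map φ.toLinearMap := by
  rw [vx_eq, vx_eq, ← Submodule.map_comp]
  rfl

lemma vx_affine {g : MvPolynomial (Fin 3) K ≃ₐ[K] MvPolynomial (Fin 3) K}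
    (hg : IsAffine (X : Fin 3 → MvPolynomial (Fin 3) K) g) : vx g = W0 K := by
  have : FiniteDimensional K (W0 K) := by
    unfold W0 sp3
    exact FiniteDimensional.span_of_finite K (Set.toFinite _)
  have hle : vx g ≤ W0 K := by
    unfold vx
    have hmem : ∀ i, g (X i) ∈ W0 K := fun i => by rw [W0_eq]; exact hg i
    unfold W0
    exact sp3_le (hmem 0) (hmem 1) (hmem 2)
  rw [vx_eq] at hle ⊢
  refine Submodule.eq_of_le_of_finrank_le hle ?_
  exact (LinearEquiv.finrank_map_eq g.toLinearEquiv (W0 K)).symm.le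

lemma vx_affine_inv {g : MvPolynomial (Fin 3) K ≃ₐ[K] MvPolynomial (Fin 3) K}
    (hg : IsAffine (X : Fin 3 → MvPolynomial (Fin 3) K) g) : vx g⁻¹ = W0 K := by
  have h1 := vx_mul g⁻¹ g
  rw [vx_affine hg, ← vx_eq, inv_mul_cancel] at h1
  rw [← h1, vx_eq]
  exact Submodule.map_id _

lemma ev_map (φ : MvPolynomial (Fin 3) K ≃ₐ[K] MvPolynomial (Fin 3) K)
    (P : MvPolynomial (Fin 2) K) (a b : MvPolynomial (Fin 3) K) :
    φ (ev P a b) = ev P (φ a) (φ b) := by
  have : (φ : MvPolynomial (Fin 3) K →ₐ[K] MvPolynomial (Fin 3) K).comp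
      (aeval ![a, b] : MvPolynomial (Fin 2) K →ₐ[K] MvPolynomial (Fin 3) K) =
      aeval ![φ a, φ b] := by
    apply MvPolynomial.algHom_ext
    intro i; fin_cases i <;> simp
  exact congrArg (fun ρ : MvPolynomial (Fin 2) K →ₐ[K] MvPolynomial (Fin 3) K => ρ P) this

lemma exists_ev {i j k : Fin 3} (hijk : ∀ l, l ≠ i → l = j ∨ l = k)
    {f : MvPolynomial (Fin 3) K}
    (hf : f ∈ Algebra.adjoin K ((X : Fin 3 → MvPolynomial (Fin 3) K) '' {l | l ≠ i})) :
    ∃ P : MvPolynomial (Fin 2) K, f = ev P (X j) (X k) := by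
  have hsub : ((X : Fin 3 → MvPolynomial (Fin 3) K) '' {l | l ≠ i}) ⊆
      Set.range (![X j, X k] : Fin 2 → MvPolynomial (Fin 3) K) := by
    rintro x ⟨l, hl, rfl⟩
    rcases hijk l hl with rfl | rfl
    · exact ⟨0, rfl⟩
    · exact ⟨1, rfl⟩
  have h1 := Algebra.adjoin_mono hsub hf
  rw [Algebra.adjoin_range_eq_range_aeval] at h1
  obtain ⟨P, hP⟩ := h1
  exact ⟨P, hP.symm⟩

lemma elementary_inv {g : MvPolynomial (Fin 3) K ≃ₐ[K] MvPolynomial (Fin 3) K}
    (hg : IsElementary (X : Fin 3 → MvPolynomial (Fin 3) K) g) :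
    IsElementary (X : Fin 3 → MvPolynomial (Fin 3) K) g⁻¹ := by
  obtain ⟨i, α, f, hα, hf, hi, hj⟩ := hg
  have hfix : ∀ j, j ≠ i → g⁻¹ (X j) = X j := fun j hji => by
    have := hj j hji
    rw [← this]
    exact (g.symm_apply_apply _).trans (by rw [this])
  have hgf : g f = f := by
    have : ∀ y ∈ Algebra.adjoin K ((X : Fin 3 → MvPolynomial (Fin 3) K) '' {l | l ≠ i}),
        g y = y := by
      intro y hy
      induction hy using Algebra.adjoin_induction with
      | mem x hx => obtain ⟨l, hl, rfl⟩ := hx; exact hj l hl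
      | algebraMap r => exact g.commutes r
      | add x y _ _ hx hy => rw [map_add, hx, hy]
      | mul x y _ _ hx hy => rw [map_mul, hx, hy]
    exact this f hf
  refine ⟨i, α⁻¹, -(α⁻¹ • f), inv_ne_zero hα, ?_, ?_, hfix⟩
  · exact neg_mem (Subalgebra.smul_mem _ hf _)
  · have h2 : g (α⁻¹ • X i + -(α⁻¹ • f)) = X i := by
      rw [map_add, map_neg, map_smul, map_smul, hi, hgf, smul_add, smul_smul,
        inv_mul_cancel₀ hα, one_smul]
      abel
    exact g.symm_apply_eq.mpr h2.symm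

/-- the vertex changes by an elementary move -/
lemma step {f g h : MvPolynomial (Fin 3) K} (hm : MainStatement K w) (H : Fr f g h)
    (hr : Red w (sp3 f g h)) {α : K} (hα : α ≠ 0) (P : MvPolynomial (Fin 2) K) :
    Red w (sp3 (α • f + ev P g h) g h) := by
  have h1 : α • f + ev P g h =
      C α * (f + ev (C α⁻¹ * P) g h) + C 0 * g + C 0 * h + C 0 := by
    have : (C α * C α⁻¹ : MvPolynomial (Fin 3) K) = 1 := by
      rw [← map_mul, mul_inv_cancel₀ hα, map_one]
    rw [ev_mul, ev_C, smul_eq_C_mul]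
    simp only [map_zero]
    linear_combination (-(ev P g h)) * this
  rw [h1, sp3_aff1 hα]
  exact hm f g h H hr _ (adj1 H _)

theorem tame [CharZero K] (F : Facts K w) (hm : MainStatement K w) (ha : AutfrStatement K) :
    TameStatement K w := by
  have hel : ∀ φ g : MvPolynomial (Fin 3) K ≃ₐ[K] MvPolynomial (Fin 3) K,
      IsElementary (X : Fin 3 → MvPolynomial (Fin 3) K) g → Red w (vx φ) →
      Red w (vx (φ * g)) := by
    intro φ g ⟨i, α, f, hα, hf, hi, hj⟩ hr
    have Hfr := ha φ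
    unfold vx at hr ⊢
    simp only [AlgEquiv.mul_apply]
    fin_cases i
    · obtain ⟨P, rfl⟩ := exists_ev (i := 0) (j := 1) (k := 2) (by decide) hf
      have h0 : g (X 0) = α • X 0 + ev P (X 1) (X 2) := hi
      rw [h0, hj 1 (by decide), hj 2 (by decide), map_add, map_smul, ev_map]
      exact step hm Hfr hr hα P
    · obtain ⟨P, rfl⟩ := exists_ev (i := 1) (j := 0) (k := 2) (by decide) hf
      have h0 : g (X 1) = α • X 1 + ev P (X 0) (X 2) := hi
      rw [h0, hj 0 (by decide), hj 2 (by decide), map_add, map_smul, ev_map, sp3_swap12]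
      rw [sp3_swap12] at hr
      exact step hm Hfr.swap12 hr hα P
    · obtain ⟨P, rfl⟩ := exists_ev (i := 2) (j := 0) (k := 1) (by decide) hf
      have h0 : g (X 2) = α • X 2 + ev P (X 0) (X 1) := hi
      rw [h0, hj 0 (by decide), hj 1 (by decide), map_add, map_smul, ev_map, sp3_rot']
      rw [sp3_rot'] at hr
      exact step hm Hfr.rot' hr hα P
  have hvx : ∀ φ ∈ TAut K (X : Fin 3 → MvPolynomial (Fin 3) K), Red w (vx φ) := by
    intro φ hφ
    unfold TAut at hφ
    induction hφ using Subgroup.closure_induction_right with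
    | one =>
      refine Red.base (X 0) (X 1) (X 2) fr_X ?_
      rw [F.d.X', F.d.X', F.d.X']
      exact le_refl _
    | mul_right x hx y hy hr =>
      rcases hy with hy | hy
      · rw [vx_mul, vx_affine hy, ← vx_eq]; exact hr
      · exact hel x y hy hr
    | mul_inv_cancel x hx y hy hr =>
      rcases hy with hy | hy
      · rw [vx_mul, vx_affine_inv hy, ← vx_eq]; exact hr
      · exact hel x _ (elementary_inv hy) hr
  exact hvx

end Pool.Agent.Lib.MP_e1f7e2_al.SU.H42
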